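import Pool.Agent.Work.MP_03d391_pen.Main65

set_option autoImplicit false

namespace Pool.Pen

open Polynomial

/-- `S = k[x_0, ..., x_3]`, `F = F0 + t F1`, `G = G0 + t G1` forms of degrees `a`, `b`. -/
structure PencilFamily {k : Type} [Field k] (a b : ℕ) (F0 F1 G0 G1 : MvPolynomial (Fin 4) k)
    (I : Ideal (MvPolynomial (Fin 4) k)[X]) (P : Ideal (MvPolynomial (Fin 4) k)) : Prop where
  homF0 : F0.IsHomogeneous a
  homF1 : F1.IsHomogeneous a
  homG0 : G0.IsHomogeneous b
  homG1 : G1.IsHomogeneous b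
  /-- the generic member is a complete intersection -/
  cop : IsRelPrime (C F0 + X * C F1) (C G0 + X * C G1)
  /-- `I` is the ideal of the closure of the generic member -/
  mem_I : ∀ f, f ∈ I ↔ ∃ u : k[X], u ≠ 0 ∧
    u.map MvPolynomial.C * f ∈ Ideal.span {C F0 + X * C F1, C G0 + X * C G1}
  prime_I : I.IsPrime
  /-- the ideal of the special member -/
  mem_P : ∀ f, f ∈ P ↔ ∀ i, ∃ N : ℕ, ∃ g ∈ I, g.coeff 0 = MvPolynomial.X i ^ N * f
  prime_P : P.IsPrime
  height_P : P.height = 2
  /-- the family is not constant -/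
  notConst : ¬ (C F1 ∈ I ∧ C G1 ∈ I)

theorem notop65 {k : Type} [Field k] {A B : MvPolynomial (Fin 4) k} {m n : ℕ}
    (hA : A.IsHomogeneous m) (hB : B.IsHomogeneous n) (uA : ¬ IsUnit A) (uB : ¬ IsUnit B) :
    Ideal.span {A, B} ≠ ⊤ := by
  intro h
  have hz : ∀ {D : MvPolynomial (Fin 4) k} {l : ℕ}, D.IsHomogeneous l → ¬ IsUnit D →
      MvPolynomial.constantCoeff D = 0 := by
    intro D l hD uD
    by_contra hne
    have hl : l = 0 := by
      have := hD (d := 0) (by simpa [MvPolynomial.constantCoeff_eq] using hne)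
      simpa using this.symm
    subst hl
    have h0 : D.totalDegree = 0 := Nat.le_zero.mp hD.totalDegree_le
    rw [MvPolynomial.totalDegree_eq_zero_iff_eq_C] at h0
    apply uD
    rw [h0]
    exact (isUnit_iff_ne_zero.mpr hne).map MvPolynomial.C
  have h1 : (1 : MvPolynomial (Fin 4) k) ∈ Ideal.span {A, B} := by rw [h]; trivial
  obtain ⟨x, y, e⟩ := Ideal.mem_span_pair.mp h1
  have e1 := congrArg MvPolynomial.constantCoeff e
  simp [hz hA uA, hz hB uB] at e1

theorem pencil65 {k : Type} [Field k] (a b : ℕ) (F0 F1 G0 G1 : MvPolynomial (Fin 4) k)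
    (I : Ideal (MvPolynomial (Fin 4) k)[X]) (P : Ideal (MvPolynomial (Fin 4) k))
    (h : PencilFamily a b F0 F1 G0 G1 I P) :
    ∃ (A B : MvPolynomial (Fin 4) k) (m n : ℕ), A.IsHomogeneous m ∧ B.IsHomogeneous n ∧
      IsRelPrime A B ∧
      ∀ f, f ∈ P ↔ ∀ i, ∃ N : ℕ, MvPolynomial.X i ^ N * f ∈ Ideal.span {A, B} := by
  classical
  obtain ⟨homF0, homF1, homG0, homG1, cop, mem_I, prime_I, mem_P, prime_P, height_P, notConst⟩ := h
  have hFI : C F0 + X * C F1 ∈ I := (mem_I _).2 ⟨1, one_ne_zero, by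
    rw [Polynomial.map_one, one_mul]; exact Ideal.subset_span (by simp)⟩
  have hGI : C G0 + X * C G1 ∈ I := (mem_I _).2 ⟨1, one_ne_zero, by
    rw [Polynomial.map_one, one_mul]; exact Ideal.subset_span (by simp)⟩
  have hX : (X : (MvPolynomial (Fin 4) k)[X]) ∉ I := by
    intro hx
    obtain ⟨u, hu0, hu⟩ := (mem_I _).1 hx
    apply prime_I.ne_top
    rw [Ideal.eq_top_iff_one, mem_I]
    exact ⟨u * X, mul_ne_zero hu0 X_ne_zero, by
      rw [mul_one, Polynomial.map_mul, Polynomial.map_X]; exact hu⟩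
  let _ : GCDMonoid (MvPolynomial (Fin 4) k) := UniqueFactorizationMonoid.toGCDMonoid _
  obtain ⟨V, U, hF0, hG0, hu⟩ := extract_gcd F0 G0
  set h0 := gcd F0 G0 with hh0
  have hVU : IsRelPrime V U := (gcd_isUnit_iff_isRelPrime).mp hu
  by_cases uh : IsUnit h0
  · have hrel : IsRelPrime F0 G0 := (gcd_isUnit_iff_isRelPrime).mp uh
    have hG0' : G0 ≠ 0 := by
      intro hz
      have uF : IsUnit F0 := hrel dvd_rfl (by rw [hz]; exact dvd_zero _)
      apply prime_P.ne_top
      rw [Ideal.eq_top_iff_one, mem_P]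
      intro i
      obtain ⟨u, hu'⟩ := uF
      refine ⟨0, C (↑u⁻¹ : MvPolynomial (Fin 4) k) * (C F0 + X * C F1), I.mul_mem_left _ hFI, ?_⟩
      simp [← hu']
    refine ⟨F0, G0, a, b, homF0, homG0, hrel, fun f => ⟨fun hf i => ?_, fun hf => ?_⟩⟩
    · obtain ⟨N, g, hg, e⟩ := (mem_P f).1 hf i
      obtain ⟨u, hu0, hu1⟩ := (mem_I g).1 hg
      obtain ⟨m, c, g', hc, hm, hg'⟩ := shift65 _ u hu0 g hu1
      obtain ⟨α, β, e'⟩ := Ideal.mem_span_pair.mp hm
      refine ⟨N, ?_⟩
      rw [← e]
      apply unshift65 hc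
      rw [← hg']
      exact step65 F0 F1 G0 G1 hrel hG0' m α β g' e'.symm
    · rw [mem_P]
      intro i
      obtain ⟨N, hN⟩ := hf i
      obtain ⟨x, y, e⟩ := Ideal.mem_span_pair.mp hN
      refine ⟨N, C x * (C F0 + X * C F1) + C y * (C G0 + X * C G1),
        I.add_mem (I.mul_mem_left _ hFI) (I.mul_mem_left _ hGI), ?_⟩
      rw [← e]
      simp
  · have hne0 : h0 ≠ 0 := by
      intro hz
      obtain ⟨z1, z2⟩ := (gcd_eq_zero_iff F0 G0).mp hz
      have := cop (d := X) (by rw [z1]; simp) (by rw [z2]; simp)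
      exact Polynomial.not_isUnit_X this
    have H0 : U * F1 - V * G1 ≠ 0 := by
      intro hz
      have hz' : U * F1 = V * G1 := sub_eq_zero.mp hz
      have e1 : C U * (C F0 + X * C F1) = C V * (C G0 + X * C G1) := by
        have e2 : (C U * C F1 : (MvPolynomial (Fin 4) k)[X]) = C V * C G1 := by
          rw [← C_mul, ← C_mul, hz']
        rw [hF0, hG0, C_mul, C_mul]
        linear_combination X * e2
      have hd : (C F0 + X * C F1) ∣ C V := by
        apply cop.dvd_of_dvd_mul_right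
        exact ⟨C U, by rw [← e1]; ring⟩
      obtain ⟨W, hW⟩ := hd
      have e3 := congrArg (fun g : (MvPolynomial (Fin 4) k)[X] => g.coeff 0) hW
      simp only [coeff_C_zero, mul_coeff_zero, coeff_add, coeff_X_zero, zero_mul, add_zero] at e3
      by_cases hV : V = 0
      · have uU : IsUnit U := hVU (by rw [hV]; exact dvd_zero _) dvd_rfl
        have hF1 : F1 = 0 := by
          rw [hV, zero_mul] at hz'
          exact (mul_eq_zero.mp hz').resolve_left uU.ne_zero
        have hFz : C F0 + X * C F1 = 0 := by rw [hF0, hV, hF1]; simp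
        have uG : IsUnit (C G0 + X * C G1) := cop (by rw [hFz]; exact dvd_zero _) dvd_rfl
        have uG0 : IsUnit G0 := by
          have := uG.map (Polynomial.constantCoeff)
          simpa using this
        rw [hG0] at uG0
        exact uh (isUnit_of_mul_isUnit_left uG0)
      · rw [hF0] at e3
        apply uh
        apply IsUnit.of_mul_eq_one (W.coeff 0)
        apply mul_left_cancel₀ hV
        linear_combination -e3
    have hh0hom : ∃ m, h0.IsHomogeneous m := by
      by_cases z : F0 = 0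
      · have z2 : G0 ≠ 0 := by
          intro z2
          exact hne0 ((gcd_eq_zero_iff F0 G0).mpr ⟨z, z2⟩)
        exact hfac h0 U b (by rw [← hG0]; exact homG0) (by rw [← hG0]; exact z2)
      · exact hfac h0 V a (by rw [← hF0]; exact homF0) (by rw [← hF0]; exact z)
    have hHhom : ∃ m, (U * F1 - V * G1).IsHomogeneous m := by
      apply hfac _ h0 (b + a)
      · have : (U * F1 - V * G1) * h0 = G0 * F1 - F0 * G1 := by
          conv_rhs => rw [hF0, hG0]
          ring
        rw [this]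
        refine (homG0.mul homF1).sub ?_
        rw [add_comm b a]
        exact homF0.mul homG1
      · exact mul_ne_zero H0 hne0
    obtain ⟨mh, hmh⟩ := hh0hom
    obtain ⟨mH, hmH⟩ := hHhom
    have hphom : ∀ p, p ∣ U * F1 - V * G1 → ∃ m, p.IsHomogeneous m := by
      rintro p ⟨c, hc⟩
      exact hfac p c mH (by rw [← hc]; exact hmH) (by rw [← hc]; exact H0)
    obtain ⟨p, hp, hpH, hph, hiff⟩ := core65 h0 U V F1 G1 I prime_I
      (by rw [← hF0, ← hG0]; exact mem_I) notConst hVU.symm H0 hX P prime_P height_P mem_P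
      (fun p hp hpH => by
        obtain ⟨m, hm⟩ := hphom p hpH
        exact notop65 hmh hm uh hp.not_isUnit)
    obtain ⟨m, hm⟩ := hphom p hpH
    exact ⟨h0, p, mh, m, hmh, hm,
      ((hp.irreducible.isRelPrime_iff_not_dvd).mpr hph).symm, hiff⟩

end Pool.Pen
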