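import Pool.Agent.Work.MP_03d391_pen.PenAux

set_option autoImplicit false

namespace Pool.Pen

open Polynomial

/-- key step -/
theorem key65 {S : Type} [CommRing S] [IsDomain S] (h U V F1 G1 H p : S) (hp : Prime p)
    (hH : U * F1 - V * G1 = H) (hpH : p ∣ H) (hph : ¬ p ∣ h) (hpV : ¬ p ∣ V)
    (α β f : S[X]) (m : ℕ)
    (e : X ^ m * f = α * (C (h * V) + X * C F1) + β * (C (h * U) + X * C G1)) :
    f.coeff 0 ∈ Ideal.span {h, p} := by
  have hprime : (Ideal.span {p} : Ideal S).IsPrime :=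
    (Ideal.span_singleton_prime hp.ne_zero).mpr hp
  let B := S ⧸ (Ideal.span {p} : Ideal S)
  let q : S →+* B := Ideal.Quotient.mk _
  have hq0 : ∀ x, q x = 0 ↔ p ∣ x := fun x => by
    rw [Ideal.Quotient.eq_zero_iff_mem, Ideal.mem_span_singleton]
  have hV : q V ≠ 0 := fun h' => hpV ((hq0 V).mp h')
  have hh : q h ≠ 0 := fun h' => hph ((hq0 h).mp h')
  have e1 : q U * q F1 = q V * q G1 := by
    have : q (U * F1 - V * G1) = 0 := (hq0 _).mpr (hH ▸ hpH)
    rw [map_sub, map_mul, map_mul, sub_eq_zero] at this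
    exact this
  have e2 := congrArg (Polynomial.map q) e
  simp only [Polynomial.map_mul, Polynomial.map_add, Polynomial.map_pow, Polynomial.map_X,
    Polynomial.map_C] at e2
  set F' : B[X] := C (q (h * V)) + X * C (q F1) with hF'
  have e3 : C (q V) * (C (q (h * U)) + X * C (q G1)) = C (q U) * F' := by
    have e1' : (C (q U) * C (q F1) : B[X]) = C (q V) * C (q G1) := by
      rw [← C_mul, ← C_mul, e1]
    simp only [hF', map_mul]
    linear_combination (-(X : B[X])) * e1'
  have e4 : X ^ m * (C (q V) * f.map q) = (C (q V) * α.map q + C (q U) * β.map q) * F' := by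
    linear_combination (C (q V)) * e2 + (β.map q) * e3
  have hXF : ¬ (X : B[X]) ∣ F' := by
    rw [Polynomial.X_dvd_iff]
    simp only [hF', coeff_add, coeff_C_zero, mul_coeff_zero, coeff_X_zero, zero_mul, add_zero]
    rw [map_mul]
    exact mul_ne_zero hh hV
  have hd : (X : B[X]) ^ m ∣ C (q V) * α.map q + C (q U) * β.map q :=
    Prime.pow_dvd_of_dvd_mul_right Polynomial.prime_X m hXF ⟨_, e4.symm⟩
  obtain ⟨D, hD⟩ := hd
  have e5 : C (q V) * f.map q = D * F' := by
    have hX : (X : B[X]) ^ m ≠ 0 := pow_ne_zero _ Polynomial.X_ne_zero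
    apply mul_left_cancel₀ hX
    rw [e4, hD]
    ring
  have e6 := congrArg (fun g : B[X] => g.coeff 0) e5
  simp only [hF', mul_coeff_zero, coeff_C_zero, coeff_map, coeff_add, coeff_X_zero, zero_mul,
    add_zero] at e6
  have e7 : q (f.coeff 0) = D.coeff 0 * q h := by
    apply mul_left_cancel₀ hV
    rw [e6, map_mul]
    ring
  obtain ⟨d, hd⟩ := Ideal.Quotient.mk_surjective (D.coeff 0)
  have e8 : q (f.coeff 0 - d * h) = 0 := by
    rw [map_sub, map_mul, e7, sub_eq_zero]
    congr 1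
    exact hd.symm
  obtain ⟨c, hc⟩ := (hq0 _).mp e8
  rw [Ideal.mem_span_pair]
  exact ⟨d, c, by linear_combination -hc⟩

end Pool.Pen
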