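import Pool.Agent.Work.MP_03d391_pen.Key65

set_option autoImplicit false

namespace Pool.Pen

open Polynomial

theorem step65 {S : Type} [CommRing S] [IsDomain S] [UniqueFactorizationMonoid S]
    (F0 F1 G0 G1 : S) (hc : IsRelPrime F0 G0) (hG0 : G0 ≠ 0) (m : ℕ) : ∀ (α β f : S[X]),
    X ^ m * f = α * (C F0 + X * C F1) + β * (C G0 + X * C G1) →
    f.coeff 0 ∈ Ideal.span {F0, G0} := by
  induction m with
  | zero =>
    intro α β f e
    have e1 := congrArg (fun g : S[X] => g.coeff 0) e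
    simp only [pow_zero, one_mul, coeff_add, mul_coeff_zero, coeff_C_zero, coeff_X_zero,
      zero_mul, add_zero] at e1
    rw [Ideal.mem_span_pair]
    exact ⟨_, _, e1.symm⟩
  | succ m ih =>
    intro α β f e
    have e1 := congrArg (fun g : S[X] => g.coeff 0) e
    simp only [pow_succ', mul_assoc, coeff_add, mul_coeff_zero, coeff_C_zero, coeff_X_zero,
      zero_mul, add_zero] at e1
    have hd : G0 ∣ α.coeff 0 := by
      have h1 : G0 ∣ α.coeff 0 * F0 := ⟨-(β.coeff 0), by linear_combination -e1⟩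
      exact hc.symm.dvd_of_dvd_mul_right h1
    obtain ⟨γ, hγ⟩ := hd
    have hβ : β.coeff 0 = -(γ * F0) := by
      apply mul_right_cancel₀ hG0
      rw [hγ] at e1
      linear_combination -e1
    obtain ⟨α', hα'⟩ : (X : S[X]) ∣ α - C (G0 * γ) := by
      rw [X_dvd_iff]; simp [hγ]
    obtain ⟨β', hβ'⟩ : (X : S[X]) ∣ β + C (γ * F0) := by
      rw [X_dvd_iff]; simp [hβ]
    apply ih (α' - C γ * C G1) (β' + C γ * C F1) f
    apply mul_left_cancel₀ (Polynomial.X_ne_zero (R := S))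
    have ea : α = X * α' + C G0 * C γ := by rw [← hα', C_mul]; ring
    have eb : β = X * β' - C γ * C F0 := by rw [← hβ', C_mul]; ring
    rw [ea, eb] at e
    linear_combination e

/-- from `u(t) g ∈ J` to `t^m g' ∈ J`, `g'(0) = c g(0)` -/
theorem shift65 {k : Type} [Field k] (J : Ideal (MvPolynomial (Fin 4) k)[X]) (u : k[X])
    (hu : u ≠ 0) (g : (MvPolynomial (Fin 4) k)[X]) (h : u.map MvPolynomial.C * g ∈ J) :
    ∃ (m : ℕ) (c : k) (g' : (MvPolynomial (Fin 4) k)[X]), c ≠ 0 ∧ X ^ m * g' ∈ J ∧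
      g'.coeff 0 = MvPolynomial.C c * g.coeff 0 := by
  obtain ⟨v, hv, hvd⟩ := Polynomial.exists_eq_pow_rootMultiplicity_mul_and_not_dvd u hu 0
  refine ⟨u.rootMultiplicity 0, v.coeff 0, v.map MvPolynomial.C * g, ?_, ?_, ?_⟩
  · intro h0
    apply hvd
    rw [C_0, sub_zero, X_dvd_iff]
    exact h0
  · have e : u.map MvPolynomial.C * g =
        X ^ (u.rootMultiplicity 0) * (v.map (MvPolynomial.C (σ := Fin 4)) * g) := by
      conv_lhs => rw [hv]
      simp only [C_0, sub_zero, Polynomial.map_mul, Polynomial.map_pow, Polynomial.map_X]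
      ring
    rw [← e]
    exact h
  · rw [mul_coeff_zero, coeff_map]

theorem unshift65 {k : Type} [Field k] {J : Ideal (MvPolynomial (Fin 4) k)} {c : k} (hc : c ≠ 0)
    {x : MvPolynomial (Fin 4) k} (h : MvPolynomial.C c * x ∈ J) : x ∈ J := by
  have := J.mul_mem_left (MvPolynomial.C c⁻¹) h
  rw [← mul_assoc, ← map_mul, inv_mul_cancel₀ hc, map_one, one_mul] at this
  exact this

/-- the two steps together, not yet homogeneous -/
theorem core65 {k : Type} [Field k] (h U V F1 G1 : MvPolynomial (Fin 4) k)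
    (I : Ideal (MvPolynomial (Fin 4) k)[X]) (hIp : I.IsPrime)
    (hI : ∀ f, f ∈ I ↔ ∃ u : k[X], u ≠ 0 ∧ u.map MvPolynomial.C * f ∈
      Ideal.span {C (h * V) + X * C F1, C (h * U) + X * C G1})
    (hnc : ¬ (C F1 ∈ I ∧ C G1 ∈ I)) (hUV : IsRelPrime U V)
    (H0 : U * F1 - V * G1 ≠ 0) (hX : (X : (MvPolynomial (Fin 4) k)[X]) ∉ I)
    (P : Ideal (MvPolynomial (Fin 4) k)) (hPp : P.IsPrime) (hPh : P.height = 2)
    (hP : ∀ f, f ∈ P ↔ ∀ i, ∃ N : ℕ, ∃ g ∈ I, g.coeff 0 = MvPolynomial.X i ^ N * f)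
    (hne : ∀ p, Prime p → p ∣ U * F1 - V * G1 → Ideal.span {h, p} ≠ ⊤) :
    ∃ p, Prime p ∧ p ∣ U * F1 - V * G1 ∧ ¬ p ∣ h ∧
      ∀ f, f ∈ P ↔ ∀ i, ∃ N : ℕ, MvPolynomial.X i ^ N * f ∈ Ideal.span {h, p} := by
  have hFI : C (h * V) + X * C F1 ∈ I := (hI _).2 ⟨1, one_ne_zero, by
    rw [Polynomial.map_one, one_mul]; exact Ideal.subset_span (by simp)⟩
  have hGI : C (h * U) + X * C G1 ∈ I := (hI _).2 ⟨1, one_ne_zero, by
    rw [Polynomial.map_one, one_mul]; exact Ideal.subset_span (by simp)⟩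
  have hHI : C (U * F1 - V * G1) ∈ I := by
    rw [hI]
    refine ⟨X, X_ne_zero, ?_⟩
    rw [Polynomial.map_X, Ideal.mem_span_pair]
    refine ⟨C U, -C V, ?_⟩
    simp only [C_mul, C_sub]
    ring
  -- an irreducible factor in I
  obtain ⟨p, hp, hpH, hpI⟩ : ∃ p, Prime p ∧ p ∣ U * F1 - V * G1 ∧ C p ∈ I := by
    have hpr : (I.comap (C : MvPolynomial (Fin 4) k →+* _)).IsPrime := Ideal.comap_isPrime _ _
    have hmem : U * F1 - V * G1 ∈ I.comap (C : MvPolynomial (Fin 4) k →+* _) := hHI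
    obtain ⟨s, hs, hsu⟩ := UniqueFactorizationMonoid.exists_prime_factors _ H0
    have hprod : s.prod ∈ I.comap (C : MvPolynomial (Fin 4) k →+* _) := by
      obtain ⟨u, hu⟩ := hsu
      have : s.prod * u ∈ I.comap (C : MvPolynomial (Fin 4) k →+* _) := by rw [hu]; exact hmem
      exact (hpr.mem_or_mem this).resolve_right (fun h' =>
        hpr.ne_top (Ideal.eq_top_of_isUnit_mem _ h' u.isUnit))
    obtain ⟨p, hps, hpm⟩ := (Ideal.IsPrime.multiset_prod_mem_iff_exists_mem hpr s).mp hprod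
    exact ⟨p, hs p hps, (Multiset.dvd_prod hps).trans (by
      obtain ⟨u, hu⟩ := hsu
      exact ⟨u, hu.symm⟩), hpm⟩
  have hph : ¬ p ∣ h := by
    rintro ⟨c, hc⟩
    apply hnc
    have hhI : C h ∈ I := by rw [hc, C_mul]; exact I.mul_mem_right _ hpI
    constructor
    · have h1 : X * C F1 ∈ I := by
        have : X * C F1 = (C (h * V) + X * C F1) - C h * C V := by rw [C_mul]; ring
        rw [this]
        exact I.sub_mem hFI (I.mul_mem_right _ hhI)
      exact (hIp.mem_or_mem h1).resolve_left hX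
    · have h1 : X * C G1 ∈ I := by
        have : X * C G1 = (C (h * U) + X * C G1) - C h * C U := by rw [C_mul]; ring
        rw [this]
        exact I.sub_mem hGI (I.mul_mem_right _ hhI)
      exact (hIp.mem_or_mem h1).resolve_left hX
  have hI0 : ∀ g ∈ I, g.coeff 0 ∈ Ideal.span {h, p} := by
    intro g hg
    obtain ⟨u, hu0, hu⟩ := (hI g).1 hg
    obtain ⟨m, c, g', hc, hm, hg'⟩ := shift65 _ u hu0 g hu
    apply unshift65 hc
    rw [← hg']
    obtain ⟨α, β, e⟩ := Ideal.mem_span_pair.mp hm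
    by_cases hpV : p ∣ V
    · have hpU : ¬ p ∣ U := fun hU => hp.not_isUnit (hUV hU hpV)
      exact key65 h V U G1 F1 (V * G1 - U * F1) p hp rfl
        (by have : V * G1 - U * F1 = -(U * F1 - V * G1) := by ring
            rw [this]; exact (dvd_neg).mpr hpH) hph hpU β α g' m (by rw [← e]; ring)
    · exact key65 h U V F1 G1 _ p hp rfl hpH hph hpV α β g' m e.symm
  -- P is minimal over (h, p)
  obtain ⟨Q, hQ⟩ := Ideal.nonempty_minimalPrimes (hne p hp hpH)
  have hQp : Q.IsPrime := hQ.1.1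
  have hQh : Q.height ≤ 2 := by
    have h1 := Ideal.height_le_spanRank_toENat_of_mem_minimalPrimes _ Q hQ
    refine h1.trans ?_
    have h2 : (Ideal.span {h, p}).spanRank ≤ 2 := by
      refine (Submodule.spanRank_span_le_card _).trans ?_
      have := Cardinal.mk_insert_le (s := ({p} : Set (MvPolynomial (Fin 4) k))) (a := h)
      refine this.trans ?_
      rw [Cardinal.mk_singleton]
      norm_num
    have h3 := Cardinal.toENat.monotone' h2
    simpa using h3
  have hPQ : P ≤ Q := by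
    intro f hf
    obtain ⟨i, hi⟩ := ht Q hQh
    obtain ⟨N, g, hg, e⟩ := (hP f).1 hf i
    have h1 : MvPolynomial.X i ^ N * f ∈ Q := by
      rw [← e]; exact hQ.1.2 (hI0 g hg)
    exact (hQp.mem_or_mem h1).resolve_left (fun h' => hi (hQp.mem_of_pow_mem N h'))
  have hPeq : P = Q := by
    by_contra hne'
    have h1 := Ideal.height_add_one_le_of_lt_of_isPrime (lt_of_le_of_ne hPQ hne')
    rw [hPh] at h1
    have : ((2 : ℕ∞) + 1) ≤ 2 := h1.trans hQh
    exact absurd this (by decide)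
  refine ⟨p, hp, hpH, hph, fun f => ⟨fun hf i => ?_, fun hf => ?_⟩⟩
  · obtain ⟨N, g, hg, e⟩ := (hP f).1 hf i
    exact ⟨N, by rw [← e]; exact hI0 g hg⟩
  · obtain ⟨i, hi⟩ := ht P hPh.le
    obtain ⟨N, hN⟩ := hf i
    have h1 : MvPolynomial.X i ^ N * f ∈ P := by
      rw [hPeq]; exact hQ.1.2 hN
    exact (hPp.mem_or_mem h1).resolve_left (fun h' => hi (hPp.mem_of_pow_mem N h'))

end Pool.Pen
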