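import Mathlib

set_option autoImplicit false

namespace Pool.Pen

open MvPolynomial

/-- `X i ↦ X i * T` -/
noncomputable def th {k : Type} [Field k] :
    MvPolynomial (Fin 4) k →ₐ[k] Polynomial (MvPolynomial (Fin 4) k) :=
  MvPolynomial.aeval (fun i => Polynomial.C (MvPolynomial.X i) * Polynomial.X)

theorem th_monomial {k : Type} [Field k] (e : Fin 4 →₀ ℕ) (c : k) :
    th (monomial e c) = Polynomial.C (monomial e c) * Polynomial.X ^ (e.degree) := by
  unfold th
  rw [aeval_monomial, Finsupp.prod_fintype _ _ (by simp)]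
  simp only [mul_pow, Finset.prod_mul_distrib, Finset.prod_pow_eq_pow_sum]
  rw [Finsupp.degree_eq_sum, ← mul_assoc]
  congr 1
  rw [MvPolynomial.monomial_eq, Finsupp.prod_fintype _ _ (by simp)]
  simp only [map_mul, map_prod, map_pow]
  congr 1

theorem th_coeff {k : Type} [Field k] (p : MvPolynomial (Fin 4) k) (j : ℕ) (d : Fin 4 →₀ ℕ) :
    coeff d ((th p).coeff j) = if d.degree = j then coeff d p else 0 := by
  induction p using MvPolynomial.induction_on' with
  | monomial e c =>
    rw [th_monomial, Polynomial.coeff_C_mul, Polynomial.coeff_X_pow]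
    by_cases hed : e = d
    · subst hed
      by_cases hj : j = e.degree
      · subst hj; simp
      · rw [if_neg hj, if_neg (Ne.symm hj)]; simp
    · have h1 : coeff d (monomial e c) = 0 := by rw [coeff_monomial, if_neg hed]
      by_cases hj : j = e.degree
      · rw [if_pos hj, mul_one, h1]; simp
      · rw [if_neg hj, mul_zero, h1]; simp
  | add p q hp hq =>
    rw [map_add, Polynomial.coeff_add, coeff_add, hp, hq, coeff_add]
    split_ifs <;> simp

theorem th_ne {k : Type} [Field k] {p : MvPolynomial (Fin 4) k} (hp : p ≠ 0) : th p ≠ 0 := by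
  intro h
  apply hp
  ext d
  have := th_coeff p d.degree d
  rw [h] at this
  simpa using this.symm

theorem wt_deg (d : Fin 4 →₀ ℕ) : (Finsupp.weight (1 : Fin 4 → ℕ)) d = d.degree := by
  rw [Finsupp.weight_apply, Finsupp.degree_eq_sum, Finsupp.sum_fintype _ _ (by simp)]
  simp

theorem hfac {k : Type} [Field k] (p q : MvPolynomial (Fin 4) k) (n : ℕ)
    (hn : (p * q).IsHomogeneous n) (h0 : p * q ≠ 0) : ∃ m, p.IsHomogeneous m := by
  have hp0 : p ≠ 0 := left_ne_zero_of_mul h0
  have hq0 : q ≠ 0 := right_ne_zero_of_mul h0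
  have hc : ∀ j, j ≠ n → (th (p * q)).coeff j = 0 := by
    intro j hj
    ext d
    rw [th_coeff, coeff_zero]
    split_ifs with hd
    · by_contra hne
      have := hn hne
      rw [wt_deg] at this
      exact hj (hd.symm.trans this)
    · rfl
  have hmul : th (p * q) = th p * th q := map_mul th p q
  have hne := th_ne h0
  have hcn : (th (p * q)).coeff n ≠ 0 := by
    intro h
    apply hne
    ext1 j
    by_cases hj : j = n
    · subst hj; rw [h]; simp
    · rw [hc j hj]; simp
  have hdeg : (th (p * q)).natDegree = n := by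
    by_contra hd
    have := hc _ hd
    rw [Polynomial.coeff_natDegree, Polynomial.leadingCoeff_eq_zero] at this
    exact hne this
  have htr : (th (p * q)).natTrailingDegree = n := by
    by_contra hd
    have := hc _ hd
    exact hne (Polynomial.trailingCoeff_eq_zero.mp this)
  rw [hmul, Polynomial.natDegree_mul (th_ne hp0) (th_ne hq0)] at hdeg
  rw [hmul, Polynomial.natTrailingDegree_mul (th_ne hp0) (th_ne hq0)] at htr
  have h1 := Polynomial.natTrailingDegree_le_natDegree (th p)
  have h2 := Polynomial.natTrailingDegree_le_natDegree (th q)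
  refine ⟨(th p).natDegree, ?_⟩
  intro d hd
  rw [wt_deg]
  have hcd : (th p).coeff d.degree ≠ 0 := by
    intro h
    have := th_coeff p d.degree d
    rw [h, if_pos rfl] at this
    exact hd this.symm
  have h3 := Polynomial.le_natDegree_of_ne_zero hcd
  have h4 := Polynomial.natTrailingDegree_le_of_ne_zero hcd
  have : d.degree = (th p).natDegree := by omega
  exact this

/-- `X i ↦ 0` for `i < j` -/
noncomputable def ph {k : Type} [Field k] (j : ℕ) :
    MvPolynomial (Fin 4) k →ₐ[k] MvPolynomial (Fin 4) k :=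
  MvPolynomial.aeval (fun i : Fin 4 => if (i : ℕ) < j then 0 else MvPolynomial.X i)

theorem ph_lt {k : Type} [Field k] (j : ℕ) (hj : j < 4) :
    RingHom.ker (ph (k := k) j) < RingHom.ker (ph (k := k) (j + 1)) := by
  have hcomp : (ph (k := k) (j + 1)).comp (ph j) = ph (j + 1) := by
    apply MvPolynomial.algHom_ext
    intro i
    simp only [ph, AlgHom.comp_apply, aeval_X]
    by_cases h : (i : ℕ) < j
    · rw [if_pos h, if_pos (by omega)]; simp
    · rw [if_neg h]; simp
  refine lt_of_le_of_ne ?_ ?_
  · intro f hf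
    rw [RingHom.mem_ker] at hf ⊢
    have := congrArg (fun φ => φ f) hcomp
    simp only [AlgHom.comp_apply] at this
    rw [← this, hf, map_zero]
  · intro h
    have h1 : (MvPolynomial.X ⟨j, hj⟩ : MvPolynomial (Fin 4) k) ∈
        RingHom.ker (ph (k := k) (j + 1)) := by
      rw [RingHom.mem_ker]
      simp [ph]
    rw [← h, RingHom.mem_ker] at h1
    simp [ph] at h1

theorem ht {k : Type} [Field k] (Q : Ideal (MvPolynomial (Fin 4) k)) [Q.IsPrime]
    (hQ : Q.height ≤ 2) : ∃ i, MvPolynomial.X i ∉ Q := by
  by_contra hcon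
  push Not at hcon
  have hp : ∀ j, (RingHom.ker (ph (k := k) j)).IsPrime := fun j => RingHom.ker_isPrime _
  have := hp 0
  have := hp 1
  have := hp 2
  have := hp 3
  have h01 := Ideal.height_add_one_le_of_lt_of_isPrime (ph_lt (k := k) 0 (by norm_num))
  have h12 := Ideal.height_add_one_le_of_lt_of_isPrime (ph_lt (k := k) 1 (by norm_num))
  have h23 := Ideal.height_add_one_le_of_lt_of_isPrime (ph_lt (k := k) 2 (by norm_num))
  have hle : RingHom.ker (ph (k := k) 3) ≤ Q := by
    have hcomp : (Ideal.Quotient.mkₐ k Q).comp (ph 3) = Ideal.Quotient.mkₐ k Q := by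
      apply MvPolynomial.algHom_ext
      intro i
      simp only [ph, AlgHom.comp_apply, aeval_X]
      by_cases h : (i : ℕ) < 3
      · rw [if_pos h, map_zero]
        exact (Ideal.Quotient.eq_zero_iff_mem.mpr (hcon i)).symm
      · rw [if_neg h]
    intro f hf
    rw [RingHom.mem_ker] at hf
    have h1 := congrArg (fun φ => φ f) hcomp
    simp only [AlgHom.comp_apply] at h1
    rw [hf, map_zero] at h1
    exact Ideal.Quotient.eq_zero_iff_mem.mp h1.symm
  have h3Q := Ideal.height_mono hle
  have e1 : (1 : ℕ∞) ≤ (RingHom.ker (ph (k := k) 1)).height :=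
    le_trans (by simp) h01
  have e2 : (2 : ℕ∞) ≤ (RingHom.ker (ph (k := k) 2)).height :=
    le_trans (by rw [← one_add_one_eq_two]; gcongr) h12
  have e3 : (3 : ℕ∞) ≤ (RingHom.ker (ph (k := k) 3)).height :=
    le_trans (by rw [← two_add_one_eq_three]; gcongr) h23
  have : (3 : ℕ∞) ≤ 2 := e3.trans (h3Q.trans hQ)
  exact absurd this (by decide)

end Pool.Pen
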